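import Mathlib
import Pool.Prelude.Def_F_c31e40fa
import Pool.Agent.N228.UC.Cnt

set_option autoImplicit false

open MeasureTheory Filter Topology

namespace Pool.Agent.Results.MP_fcb70f_an.AlmostAllDegreesLC

/-- Local connectivity of the set `K` at the point `c`: `c` has arbitrarily small open
neighbourhoods `V` such that `K ∩ V` is connected or empty. -/
def LocallyConnectedAt (K : Set ℂ) (c : ℂ) : Prop :=
  ∀ U ∈ 𝓝 c, ∃ V ⊆ U, IsOpen V ∧ c ∈ V ∧ IsPreconnected (K ∩ V)

/-- The degrees `n` for which the Multibrot set of power `n` is not locally connected at `c`. -/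
def failing (c : ℂ) : Set ℕ := {n | ¬ LocallyConnectedAt (N62a1eb23.multibrotSet n) c}

/-- The degrees `n ≥ 2` for which `c` is a boundary point of the Multibrot set of power `n`. -/
def boundary (c : ℂ) : Set ℕ := {n | 2 ≤ n ∧ c ∈ frontier (N62a1eb23.multibrotSet n)}

/-- The boundary degrees are unresolved. -/
theorem sub (c : ℂ) : boundary c ⊆ Pool.Agent.R240.Alm.bad c := by
  rintro n ⟨h2, hf⟩
  have hcl := (Pool.Agent.H712R2.isCompact_multibrot h2).isClosed
  exact ⟨h2, hcl.frontier_subset hf, fun h => hf.2 (Pool.Agent.R240.Alm.att_interior h2 h)⟩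

theorem failing_sub (c : ℂ) : failing c ⊆ boundary c := by
  intro n hn
  have h2 : 2 ≤ n := (Pool.Agent.R240.Alm.E_sub c hn).1
  have hcl := (Pool.Agent.H712R2.isCompact_multibrot h2).isClosed
  refine ⟨h2, ?_⟩
  rw [hcl.frontier_eq]
  exact ⟨(Pool.Agent.R240.Alm.E_sub c hn).2.1, fun h => hn (Pool.Agent.R240.Alm.lc_interior h)⟩

/-- Local connectivity at a fixed parameter holds in almost all degrees. -/
theorem result :
    -- a failing degree is a boundary degree
    (∀ c : ℂ, failing c ⊆ boundary c) ∧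
    -- finitely many boundary degrees off the unit circle
    (∀ c : ℂ, ‖c‖ ≠ 1 → (boundary c).Finite) ∧
    -- at the points which are not roots of unity the gaps between the boundary degrees tend to
    -- infinity, and they have density zero
    (∀ c : ℂ, (∀ k : ℕ, 0 < k → c ^ k ≠ 1) →
      (∀ Q : ℕ, {n | n ∈ boundary c ∧ ∃ m ∈ boundary c, n < m ∧ m ≤ n + Q}.Finite) ∧
      Tendsto (fun N : ℕ => ((boundary c ∩ Set.Iio N).ncard : ℝ) / N) atTop (𝓝 0)) ∧
    -- the length of the part of the unit circle in the boundary of a Multibrot set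
    (∀ n : ℕ, 2 ≤ n → volume {θ : ℝ | θ ∈ Set.Icc 0 (2 * Real.pi) ∧
      Complex.exp (θ * Complex.I) ∈ frontier (N62a1eb23.multibrotSet n)} ≤
        ENNReal.ofReal (200000 * ((1 + Real.log (1 + Real.log n)) / n))) ∧
    (∀ n : ℕ, 10 ^ 6 ≤ n → volume {θ : ℝ | θ ∈ Set.Icc 0 (2 * Real.pi) ∧
      Complex.exp (θ * Complex.I) ∈ frontier (N62a1eb23.multibrotSet n)} ≤
        ENNReal.ofReal ((136 * Real.log (Real.log n) + 2720) / n)) ∧
    -- weighted sums over the boundary degrees, at almost every point of the unit circle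
    (∀ a : ℕ → ℝ, (∀ n, 0 ≤ a n) →
      Summable (fun n : ℕ => a n * ((1 + Real.log (1 + Real.log n)) / n)) →
      ∀ᵐ θ : ℝ, Summable ((boundary (Complex.exp (θ * Complex.I))).indicator a)) ∧
    -- the number of the boundary degrees, at almost every point of the unit circle
    (∀ s : ℝ, 2 < s → ∀ᵐ θ : ℝ, ∃ K : ℝ, ∀ N : ℕ, 3 ≤ N →
      ((boundary (Complex.exp (θ * Complex.I)) ∩ Set.Iic N).ncard : ℝ) ≤
        K * (Real.log N * (1 + Real.log (Real.log N)) ^ s)) := by
  refine ⟨failing_sub, fun c hc => (Pool.Agent.R240.Alm.bad_finite hc).subset (sub c), fun c hc =>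
    ⟨fun Q => ?_, ?_⟩, fun n hn => ?_, fun n hn => ?_, fun a ha hs => ?_, fun s hs => ?_⟩
  · refine (Pool.Agent.R240.Alm.gaps hc Q).subset ?_
    rintro n ⟨h1, m, h2, h3⟩
    exact ⟨sub c h1, m, sub c h2, h3⟩
  · refine squeeze_zero (fun N => by positivity) (fun N => ?_) (Pool.Agent.R240.Alm.density hc)
    have h1 : (boundary c ∩ Set.Iio N).ncard ≤ (Pool.Agent.R240.Alm.bad c ∩ Set.Iio N).ncard :=
      Set.ncard_le_ncard (Set.inter_subset_inter_left _ (sub c))
        ((Set.finite_Iio N).subset Set.inter_subset_right)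
    gcongr
  · refine (measure_mono ?_).trans (Pool.Agent.N228.UC.vol_CB hn)
    rintro θ ⟨h1, h2⟩
    exact ⟨h1, (sub _ (show n ∈ boundary _ from ⟨hn, h2⟩)).2⟩
  · have hsub : {θ : ℝ | θ ∈ Set.Icc 0 (2 * Real.pi) ∧
        Complex.exp (θ * Complex.I) ∈ frontier (N62a1eb23.multibrotSet n)} ⊆
        Pool.Agent.N228.UC.CB n := by
      rintro θ ⟨h1, h2⟩
      exact ⟨h1, (sub _ (show n ∈ boundary _ from ⟨le_trans (by norm_num) hn, h2⟩)).2⟩
    refine (measure_mono hsub).trans ?_
    rw [← ENNReal.ofReal_toReal (Pool.Agent.N228.UC.vol_ne_top (T := Pool.Agent.N228.UC.CB n)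
      fun θ h => h.1)]
    apply ENNReal.ofReal_le_ofReal
    refine (Pool.Agent.N228.UC.len_M hn).2.2.trans (le_of_eq ?_)
    unfold Pool.Agent.N228.UC.er
    ring
  · filter_upwards [Pool.Agent.N228.UC.ae_weights ha hs] with θ hθ
    refine Summable.of_nonneg_of_le (fun n => Set.indicator_nonneg (fun n _ => ha n) n)
      (fun n => ?_) hθ
    exact Set.indicator_le_indicator_of_subset (sub _) ha n
  · filter_upwards [Pool.Agent.N228.UC.ae_count hs] with θ hθ
    obtain ⟨K, hK⟩ := hθ
    refine ⟨K, fun N hN => le_trans ?_ (hK N hN)⟩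
    exact_mod_cast Set.ncard_le_ncard (Set.inter_subset_inter_left _ (sub _))
      ((Set.finite_Iic N).subset Set.inter_subset_right)

end Pool.Agent.Results.MP_fcb70f_an.AlmostAllDegreesLC
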